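import Mathlib
import Pool.Prelude.Def_F_87db463e
import Pool.Agent.HP.FIN

/-!
# Almost no integer reaches a prime within two steps

`primeFactorSplice` is the map `f` of the problem. The set of the integers `n` such that one of
`n`, `f n`, `f (f n)` is prime has natural density `0`.
-/

set_option autoImplicit false

namespace Pool.Agent.Results.MP_57b797_nt.NoPrimeInTwoSteps

open Nec92d717 Filter Topology

theorem result :
    Tendsto (fun X : ℕ =>
      (({n : ℕ | n < X ∧ ∃ k ≤ 2, ((primeFactorSplice^[k]) n).Prime}.ncard : ℕ) : ℝ) / X)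
      atTop (𝓝 0) := by
  classical
  refine Pool.Agent.HP.fin1.congr fun X => ?_
  congr 2
  rw [← Set.ncard_coe_finset]
  congr 1
  ext n
  simp

end Pool.Agent.Results.MP_57b797_nt.NoPrimeInTwoSteps
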