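import Mathlib
import Pool.Prelude.Def_F_87db463e
import Pool.Agent.HP.FIO

/-!
# A positive proportion of the integers does not reach a prime within three steps

`primeFactorSplice` is the map `f` of the problem. The set of the integers `n` such that none of
`n`, `f n`, `f (f n)`, `f (f (f n))` is prime has positive lower density.
-/

set_option autoImplicit false

namespace Pool.Agent.Results.MP_57b797_nt.ThreeStepsProportion

open Nec92d717

theorem result :
    ∃ c : ℝ, 0 < c ∧ ∃ X₀ : ℕ, ∀ X ≥ X₀,
      c * X ≤ ({n : ℕ | n < X ∧ ∀ k ≤ 3, ¬ ((primeFactorSplice^[k]) n).Prime}.ncard : ℝ) := by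
  classical
  obtain ⟨c, hc, X₀, h⟩ := Pool.Agent.HP.fio
  refine ⟨c, hc, X₀, fun X hX => (h X hX).trans (le_of_eq ?_)⟩
  congr 1
  rw [← Set.ncard_coe_finset]
  congr 1
  ext n
  simp

end Pool.Agent.Results.MP_57b797_nt.ThreeStepsProportion
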